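import Pool.Agent.H69.OC.Targets

/-!
# Module PUSH: pushing a configuration over a face
-/

set_option autoImplicit false
set_option linter.unusedSectionVars false
open scoped Classical
open Finset

namespace Pool.Agent.H69.OC

open DG

namespace PushAux

variable {V D : Type} [Fintype V] [Fintype D] {G : DG V D} {X : Finset V} {g : D → ℕ}

/-- the facts about the pocket which are used -/
structure PC (G : DG V D) (X : Finset V) (g : D → ℕ) : Prop where
  cub : G.Cub
  c3 : G.C3
  bal : ∀ v ∈ X, G.BalAt univ g v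
  D1 : ∀ d, G.Tc X d → g d ≠ g (G.inv d)
  D2 : ∀ d d', G.Tc X d → G.Tc X d' → g d = g d' → g (G.inv d) = g (G.inv d') → d = d'
  D3 : ∀ k1 k2 k3, G.Tc X k1 → G.Tc X k2 → G.Tc X k3 →
    g (G.inv k1) = g k2 → g (G.inv k2) = g k3 → g (G.inv k3) = g k1 →
    ∃ v ∈ X, (G.src k1 = v ∨ G.tgt k1 = v) ∧ (G.src k2 = v ∨ G.tgt k2 = v) ∧
      (G.src k3 = v ∨ G.tgt k3 = v)
  D4 : ∀ k : ℕ → D,
    (∀ i < 4, G.Tc X (k i)) → (∀ i < 4, ∀ j < 4, (k i = k j ∨ k i = G.inv (k j)) → i = j) →
    g (G.inv (k 0)) = g (k 1) → g (G.inv (k 1)) = g (k 2) → g (G.inv (k 2)) = g (k 3) →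
    g (G.inv (k 3)) = g (k 0) →
    (∀ i < 4, k i ∈ G.cut univ X ∨ G.inv (k i) ∈ G.cut univ X) ∨
    ∃ w ∈ X, ∃ w' ∈ X, w ≠ w' ∧ (∃ c, G.src c = w ∧ G.tgt c = w') ∧
      ∀ i < 4, k i ∈ G.cut univ {w, w'} ∨ G.inv (k i) ∈ G.cut univ {w, w'}

theorem PC.inj (h : PC G X g) {a b : D} (ha : G.src a ∈ X) (hb : G.src b = G.src a)
    (hab : g a = g b) : a = b := by
  refine bal_inj (A := univ) (f := g) (v := G.src a) ?_ (h.bal _ ha) ?_ (mem_univ _) (mem_univ _)
    rfl hb hab
  · rw [h.cub]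
  · intro d _ hd
    exact h.D1 d (Or.inl (by rw [hd]; exact ha))

theorem PC.inj' (h : PC G X g) {a b : D} (ha : G.src a ∈ X) (hb : G.src b = G.src a)
    (hab : g (G.inv a) = g (G.inv b)) : a = b := by
  refine bal_inj' (A := univ) (f := g) (v := G.src a) ?_ (h.bal _ ha) ?_ (mem_univ _) (mem_univ _)
    rfl hb hab
  · rw [h.cub]
  · intro d _ hd
    exact h.D1 d (Or.inl (by rw [hd]; exact ha))

/-- the third dart -/
theorem third (hC : G.Cub) {v : V} {a b : D} (ha : G.src a = v) (hb : G.src b = v)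
    (hab : a ≠ b) : ∃ c, G.src c = v ∧ c ≠ a ∧ c ≠ b ∧
      ∀ d, G.src d = v → d = a ∨ d = b ∨ d = c := by
  have h3 := hC v
  obtain ⟨x, y, z, hxy, hxz, hyz, hS⟩ := card_eq_three.1 h3
  have hm : ∀ d, G.src d = v ↔ (d = x ∨ d = y ∨ d = z) := by
    intro d
    have : d ∈ (sel univ fun d => G.src d = v) ↔ d ∈ ({x, y, z} : Finset D) := by rw [hS]
    rw [mem_sel] at this
    simpa using this
  have ha' := (hm a).1 ha
  have hb' := (hm b).1 hb
  rcases ha' with rfl | rfl | rfl <;> rcases hb' with rfl | rfl | rfl <;> try exact absurd rfl hab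
  · exact ⟨z, (hm z).2 (by simp), hxz.symm, hyz.symm, fun d hd => (hm d).1 hd⟩
  · exact ⟨y, (hm y).2 (by simp), hxy.symm, hyz, fun d hd => by
      rcases (hm d).1 hd with h | h | h <;> simp [h]⟩
  · exact ⟨z, (hm z).2 (by simp), hyz.symm, hxz.symm, fun d hd => by
      rcases (hm d).1 hd with h | h | h <;> simp [h]⟩
  · exact ⟨x, (hm x).2 (by simp), hxy, hxz, fun d hd => by
      rcases (hm d).1 hd with h | h | h <;> simp [h]⟩
  · exact ⟨y, (hm y).2 (by simp), hyz, hxy.symm, fun d hd => by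
      rcases (hm d).1 hd with h | h | h <;> simp [h]⟩
  · exact ⟨x, (hm x).2 (by simp), hxz, hxy, fun d hd => by
      rcases (hm d).1 hd with h | h | h <;> simp [h]⟩

/-- an out label is an in label -/
theorem PC.out_in (h : PC G X g) {a : D} (ha : G.src a ∈ X) :
    ∃ b, G.src b = G.src a ∧ g (G.inv b) = g a := by
  obtain ⟨d, _, h1, h2⟩ := bal_prev (A := univ) (G := G) cl_univ (h.bal _ ha) (mem_univ a)
  exact ⟨G.inv d, by rw [src_inv]; exact h1, by rw [G.inv_inv]; exact h2⟩

/-- an in label is an out label -/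
theorem PC.in_out (h : PC G X g) {a : D} (ha : G.src a ∈ X) :
    ∃ b, G.src b = G.src a ∧ g b = g (G.inv a) := by
  obtain ⟨d, _, h1, h2⟩ := bal_next (A := univ) (G := G) cl_univ (f := g) (d := G.inv a)
    (by rw [tgt_inv]; exact h.bal _ ha) (mem_univ _)
  exact ⟨d, by rw [h1, tgt_inv], h2⟩

/-- the labels at a vertex -/
theorem PC.star (h : PC G X g) {a b : D} (ha : G.src a ∈ X) (hb : G.src b = G.src a)
    (hab : g (G.inv a) = g b) : ∃ c, G.src c = G.src a ∧ c ≠ a ∧ c ≠ b ∧
      (∀ d, G.src d = G.src a → d = a ∨ d = b ∨ d = c) ∧ g (G.inv b) = g c ∧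
      g (G.inv c) = g a := by
  have hne : a ≠ b := by
    rintro rfl
    exact h.D1 a (Or.inl ha) hab.symm
  obtain ⟨c, h1, h2, h3, h4⟩ := third h.cub rfl hb hne
  have hbX : G.src b ∈ X := by rw [hb]; exact ha
  have hcX : G.src c ∈ X := by rw [h1]; exact ha
  have h5 : g (G.inv c) = g a := by
    obtain ⟨d, hd1, hd2⟩ := h.in_out hcX
    rcases h4 d (hd1.trans h1) with rfl | rfl | rfl
    · exact hd2.symm
    · exfalso
      apply h2
      exact h.inj' hcX h1.symm (by rw [← hd2, hab])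
    · exact absurd hd2 (h.D1 _ (Or.inl hcX))
  have h6 : g (G.inv b) = g c := by
    obtain ⟨d, hd1, hd2⟩ := h.out_in hcX
    rcases h4 d (hd1.trans h1) with rfl | rfl | rfl
    · exfalso
      apply h3
      exact h.inj hcX (by rw [h1, hb]) (by rw [← hab, hd2])
    · exact hd2
    · exact absurd hd2.symm (h.D1 _ (Or.inl hcX))
  exact ⟨c, h1, h2, h3, h4, h6, h5⟩

/-- an adjacent pair has at most four cut edges -/
theorem card_cut_pair (hC : G.Cub) {w w' : V} (hw : w ≠ w') {c : D} (h1 : G.src c = w)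
    (h2 : G.tgt c = w') : (G.cut univ {w, w'}).card ≤ 4 := by
  have h3 : (sel univ fun d => G.src d ∈ ({w, w'} : Finset V)).card = 6 := by
    have h := sum_deg (G := G) univ (fun _ => True) {w, w'}
    simp only [and_true] at h
    rw [← h, sum_pair hw, hC, hC]
  have h4 : G.cut univ {w, w'} ⊆ (sel univ fun d => G.src d ∈ ({w, w'} : Finset V)) \
      {c, G.inv c} := by
    intro d hd
    rw [mem_cut] at hd
    rw [mem_sdiff, mem_sel]
    refine ⟨⟨mem_univ _, hd.2.1⟩, ?_⟩
    intro hd2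
    rw [mem_insert, mem_singleton] at hd2
    rcases hd2 with rfl | rfl
    · exact hd.2.2 (by simp [h2])
    · exact hd.2.2 (by rw [tgt_inv]; simp [h1])
  have h5 := card_le_card h4
  rw [card_sdiff_of_subset] at h5
  · rw [h3, card_pair (G.inv_ne c).symm] at h5
    exact h5
  · intro d hd
    rw [mem_insert, mem_singleton] at hd
    rw [mem_sel]
    rcases hd with rfl | rfl
    · exact ⟨mem_univ _, by simp [h1]⟩
    · exact ⟨mem_univ _, by rw [src_inv]; simp [h2]⟩

/-- `D4` with the exact cut -/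
theorem PC.D4' (h : PC G X g) (k : ℕ → D) (lab : ℕ → ℕ)
    (hT : ∀ i < 4, G.Tc X (k i)) (hl : ∀ i < 4, ∀ j < 4, lab i = lab j → i = j)
    (h0 : g (k 0) = lab 0 ∧ g (G.inv (k 0)) = lab 1) (h1 : g (k 1) = lab 1 ∧ g (G.inv (k 1)) = lab 2)
    (h2 : g (k 2) = lab 2 ∧ g (G.inv (k 2)) = lab 3) (h3 : g (k 3) = lab 3 ∧ g (G.inv (k 3)) = lab 0)
    (hin : ∃ i < 4, G.src (k i) ∈ X ∧ G.tgt (k i) ∈ X) :
    ∃ w ∈ X, ∃ w' ∈ X, w ≠ w' ∧ (∃ c, G.src c = w ∧ G.tgt c = w') ∧
      (∀ i < 4, k i ∈ G.cut univ {w, w'} ∨ G.inv (k i) ∈ G.cut univ {w, w'}) ∧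
      ∀ d ∈ G.cut univ {w, w'}, ∃ i < 4, d = k i ∨ d = G.inv (k i) := by
  have hlab : ∀ i < 4, g (k i) = lab i ∧ g (G.inv (k i)) = lab ((i + 1) % 4) := by
    intro i hi
    interval_cases i
    · exact h0
    · exact h1
    · exact h2
    · exact h3
  have hdist : ∀ i < 4, ∀ j < 4, (k i = k j ∨ k i = G.inv (k j)) → i = j := by
    intro i hi j hj hij
    rcases hij with hij | hij
    · apply hl i hi j hj
      rw [← (hlab i hi).1, ← (hlab j hj).1, hij]
    · exfalso
      have e1 : i = (j + 1) % 4 := by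
        apply hl i hi _ (Nat.mod_lt _ (by norm_num))
        rw [← (hlab i hi).1, ← (hlab j hj).2, hij]
      have e2 : j = (i + 1) % 4 := by
        apply hl j hj _ (Nat.mod_lt _ (by norm_num))
        rw [← (hlab j hj).1, ← (hlab i hi).2, hij, G.inv_inv]
      omega
  rcases h.D4 k hT hdist (by rw [h0.2, h1.1]) (by rw [h1.2, h2.1]) (by rw [h2.2, h3.1])
    (by rw [h3.2, h0.1]) with h4 | ⟨w, hw, w', hw', hne, ⟨c, hc1, hc2⟩, h4⟩
  · exfalso
    obtain ⟨i, hi, hs, ht⟩ := hin
    rcases h4 i hi with h5 | h5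
    · rw [mem_cut] at h5
      exact h5.2.2 ht
    · rw [mem_cut, tgt_inv] at h5
      exact h5.2.2 hs
  · refine ⟨w, hw, w', hw', hne, ⟨c, hc1, hc2⟩, h4, ?_⟩
    have hcard := card_cut_pair h.cub hne hc1 hc2
    let e : ℕ → D := fun i => if k i ∈ G.cut univ {w, w'} then k i else G.inv (k i)
    have he : ∀ i < 4, e i ∈ G.cut univ {w, w'} := by
      intro i hi
      by_cases hk : k i ∈ G.cut univ {w, w'}
      · simp only [e, if_pos hk]
        exact hk
      · simp only [e, if_neg hk]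
        exact (h4 i hi).resolve_left hk
    have he2 : ∀ i, e i = k i ∨ e i = G.inv (k i) := by
      intro i
      by_cases hk : k i ∈ G.cut univ {w, w'}
      · simp only [e, if_pos hk]
        exact Or.inl trivial
      · simp only [e, if_neg hk]
        exact Or.inr trivial
    have hinj : Set.InjOn e (range 4) := by
      intro i hi j hj hij
      rw [mem_coe, mem_range] at hi hj
      apply hdist i hi j hj
      rcases he2 i with e1 | e1 <;> rcases he2 j with e2 | e2 <;> rw [e1, e2] at hij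
      · exact Or.inl hij
      · exact Or.inr hij
      · exact Or.inr (by rw [← hij, G.inv_inv])
      · exact Or.inl (inv_inj hij)
    have himg : (range 4).image e = G.cut univ {w, w'} := by
      apply eq_of_subset_of_card_le
      · intro d hd
        rw [mem_image] at hd
        obtain ⟨i, hi, rfl⟩ := hd
        exact he i (mem_range.1 hi)
      · rw [card_image_of_injOn hinj, card_range]
        exact hcard
    intro d hd
    rw [← himg, mem_image] at hd
    obtain ⟨i, hi, rfl⟩ := hd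
    exact ⟨i, mem_range.1 hi, he2 i⟩

/-- the walk along the face `p i` -/
structure WC (G : DG V D) (X : Finset V) (g : D → ℕ) (d1 d2 d3 d4 : D) (V1 : Finset V) (t : ℕ)
    (p : ℕ → ℕ) (h : ℕ → D) (i n : ℕ) (o : ℕ → D) : Prop where
  pc : PC G X g
  pt : G.Ports X g d1 d2 d3 d4
  cf : G.Conf X g d1 d2 d3 d4 V1 t p h
  six : 6 ≤ X.card
  hi : 0 < i
  it : i < t
  o0 : o 0 = h (i - 1)
  o1 : o (n + 1) = G.inv (h i)
  lab : ∀ a ≤ n + 1, g (o a) = p i
  nxt : ∀ a ≤ n, G.tgt (o a) = G.src (o (a + 1))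
  inY : ∀ a ≤ n, G.tgt (o a) ∈ X ∧ G.tgt (o a) ∉ V1
  inj : ∀ a ≤ n, ∀ b ≤ n, G.tgt (o a) = G.tgt (o b) → a = b
  all : ∀ d, G.src d ∈ X → G.src d ∉ V1 → g d = p i → ∃ a ≤ n, d = o (a + 1)
  hk : ∃ k, Bd G X V1 k ∧ g k = g d2 ∧ g (G.inv k) = p i
  hk2 : ∀ l ≤ t, l ≠ i → ∃ k k', Bd G X V1 k ∧ Bd G X V1 k' ∧ g (G.inv k) = p l ∧
    g (G.inv k') = p i ∧ g k = g k'

variable {d1 d2 d3 d4 : D} {V1 : Finset V} {t : ℕ} {p : ℕ → ℕ} {h : ℕ → D} {i n : ℕ} {o : ℕ → D}

theorem ports_cut (pt : G.Ports X g d1 d2 d3 d4) : d1 ∈ G.cut univ X ∧ d2 ∈ G.cut univ X ∧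
    d3 ∈ G.cut univ X ∧ d4 ∈ G.cut univ X :=
  ⟨(pt.cut _).2 (by simp), (pt.cut _).2 (by simp), (pt.cut _).2 (by simp), (pt.cut _).2 (by simp)⟩

namespace WC

variable (w : WC G X g d1 d2 d3 d4 V1 t p h i n o)
include w

theorem leg {j : ℕ} (hj : j < t) : G.src (h j) ∈ V1 ∧ G.tgt (h j) ∈ X ∧ G.tgt (h j) ∉ V1 := by
  have := (w.cf.cut (h j)).2 (Or.inr (Or.inr ⟨j, hj, rfl⟩))
  rw [mem_cut] at this
  exact ⟨this.2.1, w.cf.inX j hj, this.2.2⟩

theorem leg_tc {j : ℕ} (hj : j < t) : G.Tc X (h j) := Or.inr (w.leg hj).2.1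

theorem p1 : G.src d1 ∈ V1 ∧ G.tgt d1 ∉ X := by
  have h1 := (w.cf.cut d1).2 (Or.inl rfl)
  have h2 := (ports_cut w.pt).1
  rw [mem_cut] at h1 h2
  exact ⟨h1.2.1, h2.2.2⟩

theorem p2 : G.src d2 ∈ V1 ∧ G.tgt d2 ∉ X := by
  have h1 := (w.cf.cut d2).2 (Or.inr (Or.inl rfl))
  have h2 := (ports_cut w.pt).2.1
  rw [mem_cut] at h1 h2
  exact ⟨h1.2.1, h2.2.2⟩

theorem p3 : G.src d3 ∈ X ∧ G.tgt d3 ∉ X := by
  have h2 := (ports_cut w.pt).2.2.1
  rw [mem_cut] at h2
  exact ⟨h2.2.1, h2.2.2⟩

theorem p4 : G.src d4 ∈ X ∧ G.tgt d4 ∉ X := by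
  have h2 := (ports_cut w.pt).2.2.2
  rw [mem_cut] at h2
  exact ⟨h2.2.1, h2.2.2⟩

/-- label `m 0` -/
theorem m0 : g (G.inv (o 0)) = p (i - 1) := by
  have h1 := w.hi
  have h2 := w.it
  rw [w.o0, (w.cf.hp (i - 1) (by omega)).1]

theorem m1 : g (G.inv (o (n + 1))) = p (i + 1) := by
  rw [w.o1, G.inv_inv, (w.cf.hp i w.it).2]

theorem srcY {a : ℕ} (h1 : 1 ≤ a) (h2 : a ≤ n + 1) : G.src (o a) ∈ X ∧ G.src (o a) ∉ V1 := by
  obtain ⟨b, rfl⟩ : ∃ b, a = b + 1 := ⟨a - 1, by omega⟩
  rw [← w.nxt b (by omega)]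
  exact w.inY b (by omega)

theorem oT {a : ℕ} (h2 : a ≤ n + 1) : G.Tc X (o a) := by
  rcases Nat.eq_zero_or_pos a with rfl | ha
  · exact Or.inr (w.inY 0 (Nat.zero_le _)).1
  · exact Or.inl (w.srcY ha h2).1

/-- `m a ≠ q` -/
theorem mq {a : ℕ} (h2 : a ≤ n + 1) : g (G.inv (o a)) ≠ p i := by
  rw [← w.lab a h2]
  exact (w.pc.D1 _ (w.oT h2)).symm

theorem mp {a : ℕ} (h1 : 1 ≤ a) (h2 : a ≤ n) {l : ℕ} (hl : l ≤ t) : g (G.inv (o a)) ≠ p l := by
  intro he
  have hi := w.hi
  have hit := w.it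
  have hY := w.srcY h1 (by omega)
  have hT := w.oT (a := a) (by omega)
  rcases w.cf.ch (o a) hT i (by omega) l hl (w.lab a (by omega)) he with h3 | h3
  · have e1 : l = i - 1 := by omega
    subst e1
    have hp := w.cf.hp (i - 1) (by omega)
    have h4 : o a = h (i - 1) := by
      refine w.pc.D2 _ _ hT (w.leg_tc (by omega)) ?_ ?_
      · have e2 : i - 1 + 1 = i := by omega
        rw [w.lab a (by omega), hp.2, e2]
      · rw [he, hp.1]
    exact hY.2 (by rw [h4]; exact (w.leg (by omega)).1)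
  · subst h3
    have hp := w.cf.hp i (by omega)
    have h4 : o a = G.inv (h i) := by
      refine w.pc.D2 _ _ hT (tc_inv.2 (w.leg_tc (by omega))) ?_ ?_
      · rw [w.lab a (by omega), hp.1]
      · rw [he, G.inv_inv, hp.2]
    apply (w.inY a h2).2
    rw [h4, tgt_inv]
    exact (w.leg (by omega)).1

/-- the labels `m` are distinct -/
theorem mm {a b : ℕ} (ha : a ≤ n + 1) (hb : b ≤ n + 1) (he : g (G.inv (o a)) = g (G.inv (o b))) :
    a = b := by
  have h1 : o a = o b := w.pc.D2 _ _ (w.oT ha) (w.oT hb) (by rw [w.lab a ha, w.lab b hb]) he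
  have hit := w.it
  have hlast : G.tgt (o (n + 1)) ∈ V1 := by
    rw [w.o1, tgt_inv]
    exact (w.leg (by omega)).1
  by_cases ha2 : a = n + 1
  · by_cases hb2 : b = n + 1
    · omega
    · exfalso
      apply (w.inY b (by omega)).2
      rw [← h1, ha2]
      exact hlast
  · by_cases hb2 : b = n + 1
    · exfalso
      apply (w.inY a (by omega)).2
      rw [h1, hb2]
      exact hlast
    · exact w.inj a (by omega) b (by omega) (by rw [h1])

/-- an inner dart of the walk is not a boundary dart of `V1` -/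
theorem noBd {a : ℕ} (h1 : 1 ≤ a) (h2 : a ≤ n) {k : D} (hk : Bd G X V1 k) :
    o a ≠ k ∧ o a ≠ G.inv k := by
  have hY := w.srcY h1 (by omega)
  constructor
  · rintro he
    exact hY.2 (by rw [he]; exact hk.2.1 (by rw [← he]; exact hY.1))
  · rintro he
    apply hY.2
    rw [he, src_inv]
    apply hk.2.2
    rw [← src_inv, ← he]
    exact hY.1

theorem ms2 {a : ℕ} (h2 : a ≤ n + 1) : g (G.inv (o a)) ≠ g d2 := by
  have hit := w.it
  have hi := w.hi
  intro he
  rcases Nat.eq_zero_or_pos a with rfl | ha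
  · rw [w.m0] at he
    exact w.cf.n2 (i - 1) (by omega) he
  · by_cases ha2 : a = n + 1
    · subst ha2
      rw [w.m1] at he
      exact w.cf.n2 (i + 1) (by omega) he
    · obtain ⟨k, hk, hk1, hk3⟩ := w.hk
      apply (w.noBd ha (by omega) hk).2
      refine w.pc.D2 _ _ (w.oT h2) (tc_inv.2 hk.1) ?_ ?_
      · rw [w.lab a h2, hk3]
      · rw [he, G.inv_inv, hk1]

theorem npos : 1 ≤ n := by
  by_contra hn
  have hn0 : n = 0 := by omega
  have hit := w.it
  have hi := w.hi
  have h1 := (w.inY 0 (Nat.zero_le _)).1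
  have e1 := w.nxt 0 (Nat.zero_le _)
  obtain ⟨c, hc1, _, _, _, hc4, hc5⟩ := w.pc.star (a := G.inv (o 0)) (b := o (0 + 1))
    (by rw [src_inv]; exact h1) (by rw [src_inv, e1])
    (by rw [G.inv_inv, w.lab 0 (by omega), w.lab (0 + 1) (by omega)])
  have hT : G.Tc X c := Or.inl (by rw [hc1, src_inv]; exact h1)
  have h3 := w.m1
  rw [hn0] at h3
  rcases w.cf.ch c hT (i + 1) (by omega) (i - 1) (by omega) (by rw [← hc4, h3])
    (by rw [hc5, w.m0]) with h4 | h4
  · omega
  · omega

/-- the pair cut out by four edges around a vertex of the dual: the part at the ports -/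
theorem ms4 {a : ℕ} (h2 : a ≤ n + 1) : g (G.inv (o a)) ≠ g d4 := by
  have hit := w.it
  have hi := w.hi
  intro he
  rcases Nat.eq_zero_or_pos a with rfl | ha
  · rw [w.m0] at he
    exact w.cf.n4 (i - 1) (by omega) he
  by_cases ha2 : a = n + 1
  · subst ha2
    rw [w.m1] at he
    exact w.cf.n4 (i + 1) (by omega) he
  have ha3 : a ≤ n := by omega
  obtain ⟨k, hk, hk1, hk3⟩ := w.hk
  have hoX : G.src (o a) ∈ X := (w.srcY ha h2).1
  have hoX' : G.tgt (o a) ∈ X := (w.inY a ha3).1
  have hq1 : p i ≠ g d1 := by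
    rw [← w.cf.p0]
    intro h3
    have := w.cf.inj i (by omega) 0 (by omega) h3
    omega
  have hq3 : p i ≠ g d3 := by
    rw [← w.cf.pt]
    intro h3
    have := w.cf.inj i (by omega) t (by omega) h3
    omega
  have hq2 := w.cf.n2 i (by omega)
  have hq4 := w.cf.n4 i (by omega)
  have P := w.pt
  -- first pair
  obtain ⟨w1, hw1, w1', hw1', hne1, hadj1, hA1, hB1⟩ := w.pc.D4'
    (fun j => if j = 0 then d4 else if j = 1 then d1 else if j = 2 then k else o a)
    (fun j => if j = 0 then g d4 else if j = 1 then g d1 else if j = 2 then g d2 else p i)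
    (by
      intro j hj
      interval_cases j
      · exact Or.inl w.p4.1
      · exact Or.inl (w.cf.sub w.p1.1)
      · exact hk.1
      · exact Or.inl hoX)
    (by
      have a1 := P.n14
      have a2 := P.n24
      have a3 := P.n12
      intro j hj l hl
      interval_cases j <;> interval_cases l <;> simp [a1, a1.symm, a2, a2.symm, a3, a3.symm, hq1,
        hq1.symm, hq2, hq2.symm, hq4, hq4.symm])
    (by simp [P.h41]) (by simp [P.h12]) (by simp [hk1, hk3])
    (by simp [w.lab a h2, he]) ⟨3, by norm_num, by simpa using hoX, by simpa using hoX'⟩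
  obtain ⟨w2, hw2, w2', hw2', hne2, hadj2, hA2, hB2⟩ := w.pc.D4'
    (fun j => if j = 0 then d2 else if j = 1 then d3 else if j = 2 then G.inv (o a)
      else G.inv k)
    (fun j => if j = 0 then g d2 else if j = 1 then g d3 else if j = 2 then g d4 else p i)
    (by
      intro j hj
      interval_cases j
      · exact Or.inl (w.cf.sub w.p2.1)
      · exact Or.inl w.p3.1
      · exact tc_inv.2 (Or.inl hoX)
      · exact tc_inv.2 hk.1)
    (by
      have a1 := P.n23
      have a2 := P.n24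
      have a3 := P.n34
      intro j hj l hl
      interval_cases j <;> interval_cases l <;> simp [a1, a1.symm, a2, a2.symm, a3, a3.symm, hq3,
        hq3.symm, hq2, hq2.symm, hq4, hq4.symm])
    (by simp [P.h23]) (by simp [P.h34]) (by simp [w.lab a h2, he, G.inv_inv])
    (by simp [hk1, hk3, G.inv_inv])
    ⟨2, by norm_num, by simpa [src_inv] using hoX', by simpa [tgt_inv] using hoX⟩
  -- the union
  set U : Finset V := {w1, w1'} ∪ {w2, w2'} with hU
  have hU1 : ({w1, w1'} : Finset V) ⊆ U := subset_union_left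
  have hU2 : ({w2, w2'} : Finset V) ⊆ U := subset_union_right
  have hUX : U ⊆ X := by
    intro v hv
    simp only [hU, mem_union, mem_insert, mem_singleton] at hv
    rcases hv with (rfl | rfl) | (rfl | rfl)
    · exact hw1
    · exact hw1'
    · exact hw2
    · exact hw2'
  have hUc : U.card ≤ 4 := by
    refine (card_union_le _ _).trans ?_
    rw [card_pair hne1, card_pair hne2]
  have s1 : G.src d1 ∈ U := by
    apply hU1
    rcases hA1 1 (by norm_num) with h5 | h5
    · rw [mem_cut] at h5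
      simpa using h5.2.1
    · exfalso
      rw [mem_cut, src_inv] at h5
      apply w.p1.2
      have := h5.2.1
      simp only [one_ne_zero, if_false, if_true, mem_insert, mem_singleton] at this
      rcases this with h6 | h6 <;> rw [h6] <;> assumption
  have s4 : G.src d4 ∈ U := by
    apply hU1
    rcases hA1 0 (by norm_num) with h5 | h5
    · rw [mem_cut] at h5
      simpa using h5.2.1
    · exfalso
      rw [mem_cut, src_inv] at h5
      apply w.p4.2
      have := h5.2.1
      simp only [if_true, mem_insert, mem_singleton] at this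
      rcases this with h6 | h6 <;> rw [h6] <;> assumption
  have s2 : G.src d2 ∈ U := by
    apply hU2
    rcases hA2 0 (by norm_num) with h5 | h5
    · rw [mem_cut] at h5
      simpa using h5.2.1
    · exfalso
      rw [mem_cut, src_inv] at h5
      apply w.p2.2
      have := h5.2.1
      simp only [if_true, mem_insert, mem_singleton] at this
      rcases this with h6 | h6 <;> rw [h6] <;> assumption
  have s3 : G.src d3 ∈ U := by
    apply hU2
    rcases hA2 1 (by norm_num) with h5 | h5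
    · rw [mem_cut] at h5
      simpa using h5.2.1
    · exfalso
      rw [mem_cut, src_inv] at h5
      apply w.p3.2
      have := h5.2.1
      simp only [one_ne_zero, if_false, if_true, mem_insert, mem_singleton] at this
      rcases this with h6 | h6 <;> rw [h6] <;> assumption
  have hW1 : (X \ U).Nonempty := by
    rw [← card_pos, card_sdiff_of_subset hUX]
    have := w.six
    omega
  have hW2 : X \ U ≠ univ := by
    intro h5
    have h6 : G.src d1 ∈ X \ U := by
      rw [h5]
      exact mem_univ _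
    exact (mem_sdiff.1 h6).2 s1
  have h7 := w.pc.c3 (X \ U) hW1 hW2
  -- the darts leaving `X \ U`
  have h8 : ∀ d ∈ G.cut univ (X \ U), G.src d ∈ X ∧ G.src d ∉ U ∧ G.tgt d ∈ U := by
    intro d hd
    rw [mem_cut, mem_sdiff, mem_sdiff] at hd
    refine ⟨hd.2.1.1, hd.2.1.2, ?_⟩
    by_contra h9
    have h10 : G.tgt d ∉ X := fun h11 => hd.2.2 ⟨h11, h9⟩
    have h11 : d ∈ G.cut univ X := mem_cut.2 ⟨mem_univ _, hd.2.1.1, h10⟩
    rw [P.cut] at h11
    rcases h11 with rfl | rfl | rfl | rfl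
    · exact hd.2.1.2 s1
    · exact hd.2.1.2 s2
    · exact hd.2.1.2 s3
    · exact hd.2.1.2 s4
  have h9 : ∀ d ∈ G.cut univ (X \ U), G.inv d = k ∨ G.inv d = G.inv k ∨ G.inv d = o a ∨
      G.inv d = G.inv (o a) := by
    intro d hd
    obtain ⟨h10, h11, h12⟩ := h8 d hd
    have hport : G.inv d ≠ d1 ∧ G.inv d ≠ d2 ∧ G.inv d ≠ d3 ∧ G.inv d ≠ d4 := by
      refine ⟨?_, ?_, ?_, ?_⟩ <;> intro h13
      · apply w.p1.2
        rw [← h13, tgt_inv]
        exact h10
      · apply w.p2.2
        rw [← h13, tgt_inv]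
        exact h10
      · apply w.p3.2
        rw [← h13, tgt_inv]
        exact h10
      · apply w.p4.2
        rw [← h13, tgt_inv]
        exact h10
    have hnp : d ≠ d1 ∧ d ≠ d2 ∧ d ≠ d3 ∧ d ≠ d4 := by
      refine ⟨?_, ?_, ?_, ?_⟩ <;> rintro rfl
      · exact h11 s1
      · exact h11 s2
      · exact h11 s3
      · exact h11 s4
    rw [hU, mem_union] at h12
    rcases h12 with h12 | h12
    · have h13 : G.inv d ∈ G.cut univ {w1, w1'} := by
        rw [mem_cut, src_inv, tgt_inv]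
        exact ⟨mem_univ _, h12, fun h14 => h11 (hU1 h14)⟩
      obtain ⟨j, hj, h14⟩ := hB1 _ h13
      interval_cases j
      · simp only [if_true] at h14
        rcases h14 with h14 | h14
        · exact absurd h14 hport.2.2.2
        · exact absurd (inv_inj h14) hnp.2.2.2
      · simp only [one_ne_zero, if_false, if_true] at h14
        rcases h14 with h14 | h14
        · exact absurd h14 hport.1
        · exact absurd (inv_inj h14) hnp.1
      · simp at h14
        tauto
      · simp at h14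
        tauto
    · have h13 : G.inv d ∈ G.cut univ {w2, w2'} := by
        rw [mem_cut, src_inv, tgt_inv]
        exact ⟨mem_univ _, h12, fun h14 => h11 (hU2 h14)⟩
      obtain ⟨j, hj, h14⟩ := hB2 _ h13
      interval_cases j
      · simp only [if_true] at h14
        rcases h14 with h14 | h14
        · exact absurd h14 hport.2.1
        · exact absurd (inv_inj h14) hnp.2.1
      · simp only [one_ne_zero, if_false, if_true] at h14
        rcases h14 with h14 | h14
        · exact absurd h14 hport.2.2.1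
        · exact absurd (inv_inj h14) hnp.2.2.1
      · simp [G.inv_inv] at h14
        tauto
      · simp [G.inv_inv] at h14
        tauto
  -- at most one of `k`, `inv k`, and at most one of `o a`, `inv (o a)`
  have h10 : (G.cut univ (X \ U)).card ≤ 2 := by
    have h11 : G.cut univ (X \ U) ⊆
        {(if G.src k ∈ U then G.inv k else k), (if G.src (o a) ∈ U then G.inv (o a) else o a)} := by
      intro d hd
      obtain ⟨h12, h13, h14⟩ := h8 d hd
      rw [mem_insert, mem_singleton]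
      rcases h9 d hd with h15 | h15 | h15 | h15
      · left
        have h16 : G.src k ∈ U := by
          rw [← h15, src_inv]
          exact h14
        rw [if_pos h16, ← h15, G.inv_inv]
      · left
        have h16 : d = k := inv_inj h15
        subst h16
        rw [if_neg h13]
      · right
        have h16 : G.src (o a) ∈ U := by
          rw [← h15, src_inv]
          exact h14
        rw [if_pos h16, ← h15, G.inv_inv]
      · right
        have h16 : d = o a := inv_inj h15
        subst h16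
        rw [if_neg h13]
    exact (card_le_card h11).trans (card_le_two)
  omega

theorem kap : ∃ κ : ℕ → D, ∀ a ≤ n, G.src (κ a) = G.tgt (o a) ∧
    g (κ a) = g (G.inv (o (a + 1))) ∧ g (G.inv (κ a)) = g (G.inv (o a)) ∧
    ∀ d, G.src d = G.tgt (o a) → d = G.inv (o a) ∨ d = o (a + 1) ∨ d = κ a := by
  have h1 : ∀ a, ∃ c, a ≤ n → G.src c = G.tgt (o a) ∧
      g c = g (G.inv (o (a + 1))) ∧ g (G.inv c) = g (G.inv (o a)) ∧
      ∀ d, G.src d = G.tgt (o a) → d = G.inv (o a) ∨ d = o (a + 1) ∨ d = c := by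
    intro a
    by_cases ha : a ≤ n
    · obtain ⟨c, hc1, _, _, hc4, hc5, hc6⟩ := w.pc.star (a := G.inv (o a)) (b := o (a + 1))
        (by rw [src_inv]; exact (w.inY a ha).1) (by rw [src_inv, w.nxt a ha])
        (by rw [G.inv_inv, w.lab a (by omega), w.lab (a + 1) (by omega)])
      rw [src_inv] at hc1 hc4
      exact ⟨c, fun _ => ⟨hc1, hc5.symm, hc6, hc4⟩⟩
    · exact ⟨o 0, fun h => absurd h ha⟩
  choose κ hκ using h1
  exact ⟨κ, hκ⟩

/-- new-new -/
theorem nn {d : D} (hT : G.Tc X d) {a b : ℕ} (ha1 : 1 ≤ a) (ha2 : a ≤ n) (hb1 : 1 ≤ b)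
    (hb2 : b ≤ n) (e1 : g d = g (G.inv (o a))) (e2 : g (G.inv d) = g (G.inv (o b))) :
    a = b + 1 ∨ b = a + 1 := by
  have hab : a ≠ b := by
    rintro rfl
    exact w.pc.D1 d hT (by rw [e1, e2])
  obtain ⟨v, _, h1, _, h3⟩ := w.pc.D3 (o a) d (G.inv (o b)) (w.oT (by omega)) hT
    (tc_inv.2 (w.oT (by omega))) e1.symm e2 (by
      rw [G.inv_inv, w.lab a (by omega), w.lab b (by omega)])
  obtain ⟨a', rfl⟩ : ∃ a', a = a' + 1 := ⟨a - 1, by omega⟩
  obtain ⟨b', rfl⟩ : ∃ b', b = b' + 1 := ⟨b - 1, by omega⟩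
  rw [← w.nxt a' (by omega)] at h1
  rw [src_inv, tgt_inv, ← w.nxt b' (by omega)] at h3
  rcases h1 with h1 | h1 <;> rcases h3 with h3 | h3
  · have := w.inj a' (by omega) (b' + 1) (by omega) (by rw [h1, h3])
    omega
  · have := w.inj a' (by omega) b' (by omega) (by rw [h1, h3])
    omega
  · have := w.inj (a' + 1) (by omega) (b' + 1) (by omega) (by rw [h1, h3])
    omega
  · have := w.inj (a' + 1) (by omega) b' (by omega) (by rw [h1, h3])
    omega

/-- a boundary dart leaving a pair starts in `V1` -/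
theorem bd_src {k k0 : D} (hk : Bd G X V1 k) (h0 : k0 = k ∨ k0 = G.inv k)
    (hX : G.src k0 ∈ X) : G.src k0 ∈ V1 := by
  rcases h0 with rfl | rfl
  · exact hk.2.1 hX
  · rw [src_inv] at hX ⊢
    exact hk.2.2 hX

/-- old-new -/
theorem on {d : D} (hT : G.Tc X d) {l : ℕ} (hl : l ≤ t) (hli : l ≠ i) {a : ℕ} (h1 : 1 ≤ a)
    (h2 : a ≤ n) (e1 : g d = p l) (e2 : g (G.inv d) = g (G.inv (o a))) :
    (i = l + 1 ∧ a = 1) ∨ (l = i + 1 ∧ a = n) := by
  have hit := w.it
  have hi := w.hi
  obtain ⟨k, k', hk, hk', f1, f2, f3⟩ := w.hk2 l hl hli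
  have hoX : G.src (o a) ∈ X := (w.srcY h1 (by omega)).1
  have hoX' : G.tgt (o a) ∈ X := (w.inY a h2).1
  have hoV : G.src (o a) ∉ V1 := (w.srcY h1 (by omega)).2
  have hoV' : G.tgt (o a) ∉ V1 := (w.inY a h2).2
  have n1 : g k ≠ p l := by
    rw [← f1]
    exact w.pc.D1 k hk.1
  have n2 : g k ≠ p i := by
    rw [← f2, f3]
    exact w.pc.D1 k' hk'.1
  have n3 : g k ≠ g (G.inv (o a)) := by
    intro h3
    apply (w.noBd h1 h2 hk').2
    refine w.pc.D2 _ _ (w.oT (by omega)) (tc_inv.2 hk'.1) ?_ ?_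
    · rw [w.lab a (by omega), f2]
    · rw [← h3, G.inv_inv, f3]
  have n4 : p l ≠ p i := fun h3 => hli (w.cf.inj l hl i (by omega) h3)
  have n5 : g (G.inv (o a)) ≠ p l := w.mp h1 h2 hl
  have n6 : g (G.inv (o a)) ≠ p i := w.mq (by omega)
  obtain ⟨v, hv, v', hv', hne, ⟨c, hc1, hc2⟩, hA, _⟩ := w.pc.D4'
    (fun j => if j = 0 then k else if j = 1 then d else if j = 2 then G.inv (o a)
      else G.inv k')
    (fun j => if j = 0 then g k else if j = 1 then p l else if j = 2 then g (G.inv (o a))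
      else p i)
    (by
      intro j hj
      interval_cases j
      · exact hk.1
      · exact hT
      · exact tc_inv.2 (Or.inl hoX)
      · exact tc_inv.2 hk'.1)
    (by
      intro j hj l hl
      interval_cases j <;> interval_cases l <;> simp [n1, n1.symm, n2, n2.symm, n3, n3.symm, n4,
        n4.symm, n5, n5.symm, n6, n6.symm])
    (by simp [f1]) (by simp [e1, e2]) (by simp [w.lab a (by omega : a ≤ n + 1), G.inv_inv])
    (by simp [f2, f3, G.inv_inv])
    ⟨2, by norm_num, by simpa [src_inv] using hoX', by simpa [tgt_inv] using hoX⟩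
  have hPX : ∀ z ∈ ({v, v'} : Finset V), z ∈ X := by
    intro z hz
    rw [mem_insert, mem_singleton] at hz
    rcases hz with rfl | rfl
    · exact hv
    · exact hv'
  -- the end of `o a`
  obtain ⟨y, hyP, hyV, hyo⟩ : ∃ y ∈ ({v, v'} : Finset V), y ∉ V1 ∧
      (G.src (o a) = y ∨ G.tgt (o a) = y) := by
    have h3 := hA 2 (by norm_num)
    simp only [OfNat.ofNat_ne_zero, OfNat.ofNat_ne_one, if_false, if_true, G.inv_inv,
      mem_cut] at h3
    rcases h3 with h3 | h3
    · exact ⟨G.tgt (o a), h3.2.1, hoV', Or.inr rfl⟩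
    · exact ⟨G.src (o a), h3.2.1, hoV, Or.inl rfl⟩
  obtain ⟨κ, hκ, hκ1, hκ2⟩ : ∃ κ, (κ = k ∨ κ = G.inv k) ∧ G.src κ ∈ ({v, v'} : Finset V) ∧
      G.tgt κ ∉ ({v, v'} : Finset V) := by
    have h3 := hA 0 (by norm_num)
    simp only [if_true, mem_cut] at h3
    rcases h3 with h3 | h3
    · exact ⟨k, Or.inl rfl, h3.2⟩
    · exact ⟨G.inv k, Or.inr rfl, h3.2⟩
  obtain ⟨κ', hκ', hκ1', hκ2'⟩ : ∃ κ, (κ = k' ∨ κ = G.inv k') ∧
      G.src κ ∈ ({v, v'} : Finset V) ∧ G.tgt κ ∉ ({v, v'} : Finset V) := by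
    have h3 := hA 3 (by norm_num)
    simp only [OfNat.ofNat_ne_zero, OfNat.ofNat_ne_one, if_false, G.inv_inv,
      mem_cut, Nat.reduceEqDiff] at h3
    rcases h3 with h3 | h3
    · exact ⟨G.inv k', Or.inr rfl, h3.2⟩
    · exact ⟨k', Or.inl rfl, h3.2⟩
  have hκV : G.src κ ∈ V1 := w.bd_src hk hκ (hPX _ hκ1)
  have hκV' : G.src κ' ∈ V1 := w.bd_src hk' hκ' (hPX _ hκ1')
  -- the dart joining the two vertices
  obtain ⟨c, hc1, hc2, hsame⟩ : ∃ c, G.src c = G.src κ ∧ G.tgt c = y ∧ G.src κ' = G.src κ := by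
    rw [mem_insert, mem_singleton] at hyP hκ1 hκ1'
    rcases hyP with rfl | rfl
    · have h3 : G.src κ = v' := by
        rcases hκ1 with h4 | h4
        · exact absurd (h4 ▸ hκV) hyV
        · exact h4
      have h3' : G.src κ' = v' := by
        rcases hκ1' with h4 | h4
        · exact absurd (h4 ▸ hκV') hyV
        · exact h4
      exact ⟨G.inv c, by rw [src_inv, hc2, h3], by rw [tgt_inv, hc1], by rw [h3, h3']⟩
    · have h3 : G.src κ = v := by
        rcases hκ1 with h4 | h4
        · exact h4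
        · exact absurd (h4 ▸ hκV) hyV
      have h3' : G.src κ' = v := by
        rcases hκ1' with h4 | h4
        · exact h4
        · exact absurd (h4 ▸ hκV') hyV
      exact ⟨c, by rw [hc1, h3], hc2, by rw [h3, h3']⟩
  have hκX : G.src κ ∈ X := hPX _ hκ1
  have hcκ : c ≠ κ := by
    rintro rfl
    exact hκ2 (by rw [hc2]; exact hyP)
  have hcκ' : c ≠ κ' := by
    rintro rfl
    exact hκ2' (by rw [hc2]; exact hyP)
  have hlabc : (g c = p l ∧ g (G.inv c) = p i) ∨ (g c = p i ∧ g (G.inv c) = p l) := by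
    rcases hκ with rfl | rfl <;> rcases hκ' with rfl | rfl
    · exfalso
      have := w.pc.inj hκX hsame f3
      rw [this] at f1
      exact n4 (by rw [← f1, ← f2])
    · left
      obtain ⟨c', h3, h4, h5, h6, h7, h8⟩ := w.pc.star (a := G.inv k') (b := κ)
        (by rw [hsame]; exact hκX) hsame.symm (by rw [G.inv_inv, f3])
      rcases h6 c (by rw [hc1, hsame]) with h9 | h9 | h9
      · exact absurd h9 hcκ'
      · exact absurd h9 hcκ
      · rw [h9, ← h7, h8, f1, f2]
        exact ⟨rfl, rfl⟩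
    · right
      obtain ⟨c', h3, h4, h5, h6, h7, h8⟩ := w.pc.star (a := G.inv k) (b := κ')
        hκX hsame (by rw [G.inv_inv, f3])
      rcases h6 c hc1 with h9 | h9 | h9
      · exact absurd h9 hcκ
      · exact absurd h9 hcκ'
      · rw [h9, ← h7, h8, f1, f2]
        exact ⟨rfl, rfl⟩
    · exfalso
      have := w.pc.inj' hκX hsame (by rw [G.inv_inv, G.inv_inv, f3])
      have h3 := inv_inj this
      rw [h3] at f1
      exact n4 (by rw [← f1, ← f2])
  have hcT : G.Tc X c := Or.inl (by rw [hc1]; exact hκX)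
  have hcV : G.src c ∈ V1 := by rw [hc1]; exact hκV
  have hadj : i = l + 1 ∨ l = i + 1 := by
    rcases hlabc with ⟨h3, h4⟩ | ⟨h3, h4⟩
    · exact (w.cf.ch c hcT l hl i (by omega) h3 h4).symm
    · exact w.cf.ch c hcT i (by omega) l hl h3 h4
  rcases hadj with h3 | h3
  · left
    refine ⟨h3, ?_⟩
    have hlt : l < t := by omega
    have hp := w.cf.hp l hlt
    have hleg := w.leg hlt
    rw [← h3] at hp
    have h4 : c = h l := by
      rcases hlabc with ⟨h5, h6⟩ | ⟨h5, h6⟩
      · exfalso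
        have h7 : c = G.inv (h l) := w.pc.D2 _ _ hcT (tc_inv.2 (w.leg_tc hlt))
          (by rw [h5, hp.1]) (by rw [h6, G.inv_inv, hp.2])
        apply hleg.2.2
        rw [← src_inv, ← h7]
        exact hcV
      · exact w.pc.D2 _ _ hcT (w.leg_tc hlt) (by rw [h5, hp.2]) (by rw [h6, hp.1])
    have h5 : G.tgt (o 0) = y := by
      rw [w.o0, ← hc2, h4]
      congr 2
      omega
    rcases hyo with h6 | h6
    · obtain ⟨a', rfl⟩ : ∃ a', a = a' + 1 := ⟨a - 1, by omega⟩
      rw [← w.nxt a' (by omega)] at h6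
      have := w.inj a' (by omega) 0 (Nat.zero_le _) (by rw [h5, h6])
      omega
    · have := w.inj a h2 0 (Nat.zero_le _) (by rw [h5, h6])
      omega
  · right
    refine ⟨h3, ?_⟩
    have hp := w.cf.hp i hit
    have hleg := w.leg hit
    rw [← h3] at hp
    have h4 : c = h i := by
      rcases hlabc with ⟨h5, h6⟩ | ⟨h5, h6⟩
      · exact w.pc.D2 _ _ hcT (w.leg_tc hit) (by rw [h5, hp.2]) (by rw [h6, hp.1])
      · exfalso
        have h7 : c = G.inv (h i) := w.pc.D2 _ _ hcT (tc_inv.2 (w.leg_tc hit))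
          (by rw [h5, hp.1]) (by rw [h6, G.inv_inv, hp.2])
        apply hleg.2.2
        rw [← src_inv, ← h7]
        exact hcV
    have h5 : G.tgt (o n) = y := by
      rw [w.nxt n (le_refl _), w.o1, src_inv, ← hc2, h4]
    rcases hyo with h6 | h6
    · obtain ⟨a', rfl⟩ : ∃ a', a = a' + 1 := ⟨a - 1, by omega⟩
      rw [← w.nxt a' (by omega)] at h6
      have := w.inj a' (by omega) n (le_refl _) (by rw [h5, h6])
      omega
    · exact w.inj a h2 n (le_refl _) (by rw [h5, h6])

theorem memU {v : V} : v ∈ V1 ∪ G.touch X g (p i) ↔ v ∈ V1 ∨ ∃ a ≤ n, v = G.tgt (o a) := by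
  rw [mem_union]
  constructor
  · rintro (h1 | h1)
    · exact Or.inl h1
    · by_cases h2 : v ∈ V1
      · exact Or.inl h2
      · rw [touch, mem_sel] at h1
        obtain ⟨hX, d, rfl, hd⟩ := h1
        obtain ⟨a, ha, rfl⟩ := w.all d hX h2 hd
        exact Or.inr ⟨a, ha, (w.nxt a ha).symm⟩
  · rintro (h1 | ⟨a, ha, rfl⟩)
    · exact Or.inl h1
    · right
      rw [touch, mem_sel]
      exact ⟨(w.inY a ha).1, o (a + 1), (w.nxt a ha).symm, w.lab _ (by omega)⟩

/-- an old leg and a third dart have different labels -/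
theorem leg_ne {j : ℕ} (hj : j < t) {κ : D} {a : ℕ} (ha : a ≤ n)
    (h1 : g κ = g (G.inv (o (a + 1)))) (h2 : g (G.inv κ) = g (G.inv (o a))) :
    G.inv (h j) ≠ κ := by
  intro he
  have hp := w.cf.hp j hj
  have hn := w.npos
  rw [he] at hp
  have hp2 := hp.2
  rw [← G.inv_inv (h j), he, h2] at hp2
  have hp1 := hp.1
  rw [h1] at hp1
  rcases Nat.eq_zero_or_pos a with rfl | ha0
  · exact w.mp (a := 0 + 1) (by omega) (by omega) (by omega) hp1
  · exact w.mp (a := a) ha0 ha (by omega) hp2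

theorem main : ∃ t' p' h', G.Conf X g d1 d2 d3 d4 (V1 ∪ G.touch X g (p i)) t' p' h' ∧
    (∀ l ≤ t, l ≠ i → ∃ l' ≤ t', p' l' = p l) ∧
    (∀ l' ≤ t', (∃ l ≤ t, l ≠ i ∧ p' l' = p l) ∨
      ∃ k, Bd G X (V1 ∪ G.touch X g (p i)) k ∧ g k = p i ∧ g (G.inv k) = p' l') := by
  obtain ⟨κ, hκ⟩ := w.kap
  have hi := w.hi
  have hit := w.it
  have hn := w.npos
  -- the new labels
  obtain ⟨p', hp'⟩ : ∃ p' : ℕ → ℕ, ∀ j, p' j =
    if j < i then p j else if j < i + n then g (G.inv (o (j + 1 - i))) else p (j + 1 - n) :=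
    ⟨_, fun _ => rfl⟩
  have hpA : ∀ j < i, p' j = p j := fun j hj => by rw [hp', if_pos hj]
  have hpB : ∀ a, 1 ≤ a → a ≤ n → p' (i - 1 + a) = g (G.inv (o a)) := fun a h1 h2 => by
    rw [hp', if_neg (by omega), if_pos (by omega)]
    congr 3
    omega
  have hpC : ∀ l, i < l → p' (l + n - 1) = p l := fun l hl => by
    rw [hp', if_neg (by omega), if_neg (by omega)]
    congr 1
    omega
  have hpM : ∀ a ≤ n + 1, p' (i - 1 + a) = g (G.inv (o a)) := by
    intro a ha
    rcases Nat.eq_zero_or_pos a with rfl | ha0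
    · rw [w.m0, add_zero, hpA (i - 1) (by omega)]
    · by_cases ha2 : a = n + 1
      · subst ha2
        rw [w.m1, ← hpC (i + 1) (by omega)]
        congr 1
        omega
      · exact hpB a ha0 (by omega)
  have cases3 : ∀ j ≤ t + n - 1, (∃ l < i, j = l ∧ p' j = p l) ∨
      (∃ a, 1 ≤ a ∧ a ≤ n ∧ j = i - 1 + a ∧ p' j = g (G.inv (o a))) ∨
      (∃ l, i < l ∧ l ≤ t ∧ j = l + n - 1 ∧ p' j = p l) := by
    intro j hj
    by_cases h1 : j < i
    · exact Or.inl ⟨j, h1, rfl, hpA j h1⟩
    · by_cases h2 : j < i + n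
      · refine Or.inr (Or.inl ⟨j + 1 - i, by omega, by omega, by omega, ?_⟩)
        rw [← hpB _ (by omega) (by omega)]
        congr 1
        omega
      · refine Or.inr (Or.inr ⟨j + 1 - n, by omega, by omega, by omega, ?_⟩)
        rw [← hpC _ (by omega)]
        congr 1
        omega
  -- the new legs
  obtain ⟨h', hh'⟩ : ∃ h' : ℕ → D, ∀ j, h' j =
    if j + 1 < i then h j else if j < i + n then κ (j + 1 - i) else h (j + 1 - n) :=
    ⟨_, fun _ => rfl⟩
  have hhA : ∀ j, j + 1 < i → h' j = h j := fun j hj => by rw [hh', if_pos hj]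
  have hhB : ∀ a ≤ n, h' (i - 1 + a) = κ a := fun a h1 => by
    rw [hh', if_neg (by omega), if_pos (by omega)]
    congr 1
    omega
  have hhC : ∀ l, i < l → h' (l + n - 1) = h l := fun l hl => by
    rw [hh', if_neg (by omega), if_neg (by omega)]
    congr 1
    omega
  have cases3h : ∀ j < t + n - 1, (∃ l, l + 1 < i ∧ j = l ∧ h' j = h l) ∨
      (∃ a, a ≤ n ∧ j = i - 1 + a ∧ h' j = κ a) ∨
      (∃ l, i < l ∧ l < t ∧ j = l + n - 1 ∧ h' j = h l) := by
    intro j hj
    by_cases h1 : j + 1 < i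
    · exact Or.inl ⟨j, h1, rfl, hhA j h1⟩
    · by_cases h2 : j < i + n
      · refine Or.inr (Or.inl ⟨j + 1 - i, by omega, by omega, ?_⟩)
        rw [← hhB _ (by omega)]
        congr 1
        omega
      · refine Or.inr (Or.inr ⟨j + 1 - n, by omega, by omega, by omega, ?_⟩)
        rw [← hhC _ (by omega)]
        congr 1
        omega
  -- the cut
  have hsub : ∀ v, v ∈ V1 ∪ G.touch X g (p i) → v ∈ X := by
    intro v hv
    rcases w.memU.1 hv with h1 | ⟨a, ha, rfl⟩
    · exact w.cf.sub h1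
    · exact (w.inY a ha).1
  have legOld : ∀ l < t, l ≠ i → l + 1 ≠ i → h l ∈ G.cut univ (V1 ∪ G.touch X g (p i)) := by
    intro l hl hl1 hl2
    have hleg := w.leg hl
    have hp := w.cf.hp l hl
    rw [mem_cut, w.memU, w.memU]
    refine ⟨mem_univ _, Or.inl hleg.1, ?_⟩
    rintro (h1 | ⟨a, ha, h1⟩)
    · exact hleg.2.2 h1
    · obtain ⟨k1, k2, k3, k4⟩ := hκ a ha
      rcases k4 (G.inv (h l)) (by rw [src_inv, h1]) with h2 | h2 | h2
      · have h3 := inv_inj h2
        rw [h3, w.lab a (by omega)] at hp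
        exact hl2 (w.cf.inj i (by omega) (l + 1) (by omega) hp.2).symm
      · rw [h2, w.lab (a + 1) (by omega)] at hp
        exact hl1 (w.cf.inj i (by omega) l (by omega) hp.1).symm
      · exact w.leg_ne hl ha k2 k3 h2
  have legNew : ∀ a ≤ n, κ a ∈ G.cut univ (V1 ∪ G.touch X g (p i)) := by
    intro a ha
    obtain ⟨k1, k2, k3, k4⟩ := hκ a ha
    rw [mem_cut, w.memU, w.memU]
    refine ⟨mem_univ _, Or.inr ⟨a, ha, k1⟩, ?_⟩
    rintro (h1 | ⟨b, hb, h1⟩)
    · have h2 : G.inv (κ a) ∈ G.cut univ V1 := by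
        rw [mem_cut, src_inv, tgt_inv, k1]
        exact ⟨mem_univ _, h1, (w.inY a ha).2⟩
      rw [w.cf.cut] at h2
      rcases h2 with h2 | h2 | ⟨j, hj, h2⟩
      · apply w.p1.2
        rw [← h2, tgt_inv, k1]
        exact (w.inY a ha).1
      · apply w.p2.2
        rw [← h2, tgt_inv, k1]
        exact (w.inY a ha).1
      · exact w.leg_ne hj ha k2 k3 (by rw [← h2, G.inv_inv])
    · obtain ⟨q1, q2, q3, q4⟩ := hκ b hb
      rcases q4 (G.inv (κ a)) (by rw [src_inv, h1]) with h2 | h2 | h2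
      · have h3 := inv_inj h2
        rw [h3, w.lab b (by omega)] at k2
        exact w.mq (a := a + 1) (by omega) k2.symm
      · rw [h2, w.lab (b + 1) (by omega)] at k3
        exact w.mq (a := a) (by omega) k3.symm
      · rw [h2, q2] at k3
        have e1 := w.mm (by omega) (by omega) k3
        rw [← G.inv_inv (κ a), h2, q3] at k2
        have e2 := w.mm (by omega) (by omega) k2
        omega
  have hcut : ∀ d, d ∈ G.cut univ (V1 ∪ G.touch X g (p i)) ↔
      (d = d1 ∨ d = d2 ∨ ∃ j < t + n - 1, d = h' j) := by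
    intro d
    constructor
    · intro hd
      rw [mem_cut, w.memU, w.memU] at hd
      obtain ⟨_, hs, ht⟩ := hd
      rcases hs with hs | ⟨a, ha, hs⟩
      · have h1 : d ∈ G.cut univ V1 := mem_cut.2 ⟨mem_univ _, hs, fun h => ht (Or.inl h)⟩
        rw [w.cf.cut] at h1
        rcases h1 with h1 | h1 | ⟨j, hj, h1⟩
        · exact Or.inl h1
        · exact Or.inr (Or.inl h1)
        · right
          right
          by_cases h2 : j + 1 < i
          · exact ⟨j, by omega, by rw [hhA j h2, h1]⟩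
          · by_cases h3 : i < j
            · exact ⟨j + n - 1, by omega, by rw [hhC j h3, h1]⟩
            · exfalso
              apply ht
              right
              by_cases h4 : j = i
              · subst h4
                refine ⟨n, le_refl _, ?_⟩
                rw [w.nxt n (le_refl _), w.o1, src_inv, h1]
              · refine ⟨0, Nat.zero_le _, ?_⟩
                have e1 : j = i - 1 := by omega
                rw [w.o0, h1, e1]
      · obtain ⟨k1, k2, k3, k4⟩ := hκ a ha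
        rcases k4 d hs with h1 | h1 | h1
        · exfalso
          apply ht
          rw [h1, tgt_inv]
          rcases Nat.eq_zero_or_pos a with rfl | ha0
          · left
            rw [w.o0]
            exact (w.leg (by omega)).1
          · right
            refine ⟨a - 1, by omega, ?_⟩
            have e1 := w.nxt (a - 1) (by omega)
            have e2 : a - 1 + 1 = a := by omega
            rw [e2] at e1
            exact e1.symm
        · exfalso
          apply ht
          rw [h1]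
          by_cases ha2 : a = n
          · left
            rw [ha2, w.o1, tgt_inv]
            exact (w.leg hit).1
          · right
            exact ⟨a + 1, by omega, rfl⟩
        · right
          right
          exact ⟨i - 1 + a, by omega, by rw [hhB a ha, h1]⟩
    · rintro (rfl | rfl | ⟨j, hj, rfl⟩)
      · rw [mem_cut, w.memU]
        exact ⟨mem_univ _, Or.inl w.p1.1, fun h => w.p1.2 (hsub _ h)⟩
      · rw [mem_cut, w.memU]
        exact ⟨mem_univ _, Or.inl w.p2.1, fun h => w.p2.2 (hsub _ h)⟩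
      · rcases cases3h j hj with ⟨l, hl, _, he⟩ | ⟨a, ha, _, he⟩ | ⟨l, hl1, hl2, _, he⟩
        · rw [he]
          exact legOld l (by omega) (by omega) (by omega)
        · rw [he]
          exact legNew a ha
        · rw [he]
          exact legOld l (by omega) (by omega) (by omega)
  refine ⟨t + n - 1, p', h', ?_, ?_, ?_⟩
  · refine ⟨hsub, hcut, ?_, ?_, ?_, ?_, ?_, ?_, ?_, ?_⟩
    · -- inX
      intro j hj
      rcases cases3h j hj with ⟨l, hl, _, he⟩ | ⟨a, ha, _, he⟩ | ⟨l, hl1, hl2, _, he⟩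
      · rw [he]
        exact (w.leg (by omega)).2.1
      · rw [he]
        obtain ⟨k1, k2, k3, k4⟩ := hκ a ha
        by_contra hX
        have h1 : κ a ∈ G.cut univ X := by
          rw [mem_cut, k1]
          exact ⟨mem_univ _, (w.inY a ha).1, hX⟩
        rw [w.pt.cut] at h1
        rcases h1 with h1 | h1 | h1 | h1
        · apply (w.inY a ha).2
          rw [← k1, h1]
          exact w.p1.1
        · apply (w.inY a ha).2
          rw [← k1, h1]
          exact w.p2.1
        · rw [h1, w.pt.h34] at k3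
          exact w.ms4 (a := a) (by omega) k3.symm
        · rw [h1] at k2
          exact w.ms4 (a := a + 1) (by omega) k2.symm
      · rw [he]
        exact (w.leg (by omega)).2.1
    · -- hp
      intro j hj
      rcases cases3h j hj with ⟨l, hl, rfl, he⟩ | ⟨a, ha, rfl, he⟩ | ⟨l, hl1, hl2, rfl, he⟩
      · rw [he, hpA j (by omega), hpA (j + 1) (by omega)]
        exact w.cf.hp j (by omega)
      · obtain ⟨k1, k2, k3, k4⟩ := hκ a ha
        rw [he, hpM a (by omega), add_assoc, hpM (a + 1) (by omega)]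
        exact ⟨k3, k2⟩
      · have e1 : l + n - 1 + 1 = (l + 1) + n - 1 := by omega
        rw [he, e1, hpC l hl1, hpC (l + 1) (by omega)]
        exact w.cf.hp l (by omega)
    · rw [hpA 0 hi]
      exact w.cf.p0
    · rw [hpC t hit]
      exact w.cf.pt
    · -- inj
      intro j1 hj1 j2 hj2 he
      rcases cases3 j1 hj1 with ⟨l, hl, e1, f1⟩ | ⟨a, ha1, ha2, e1, f1⟩ | ⟨l, hl1, hl2, e1, f1⟩ <;>
      rcases cases3 j2 hj2 with ⟨l', hl', e2, f2⟩ | ⟨a', ha1', ha2', e2, f2⟩ |
        ⟨l', hl1', hl2', e2, f2⟩ <;> rw [f1, f2] at he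
      · have := w.cf.inj l (by omega) l' (by omega) he
        omega
      · exact absurd he.symm (w.mp ha1' ha2' (by omega))
      · have := w.cf.inj l (by omega) l' (by omega) he
        omega
      · exact absurd he (w.mp ha1 ha2 (by omega))
      · have := w.mm (by omega) (by omega) he
        omega
      · exact absurd he (w.mp ha1 ha2 (by omega))
      · have := w.cf.inj l (by omega) l' (by omega) he
        omega
      · exact absurd he.symm (w.mp ha1' ha2' (by omega))
      · have := w.cf.inj l (by omega) l' (by omega) he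
        omega
    · intro j hj
      rcases cases3 j hj with ⟨l, hl, e1, f1⟩ | ⟨a, ha1, ha2, e1, f1⟩ | ⟨l, hl1, hl2, e1, f1⟩ <;>
        rw [f1]
      · exact w.cf.n2 l (by omega)
      · exact w.ms2 (by omega)
      · exact w.cf.n2 l (by omega)
    · intro j hj
      rcases cases3 j hj with ⟨l, hl, e1, f1⟩ | ⟨a, ha1, ha2, e1, f1⟩ | ⟨l, hl1, hl2, e1, f1⟩ <;>
        rw [f1]
      · exact w.cf.n4 l (by omega)
      · exact w.ms4 (by omega)
      · exact w.cf.n4 l (by omega)
    · -- ch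
      intro d hT j1 hj1 j2 hj2 g1 g2
      rcases cases3 j1 hj1 with ⟨l, hl, e1, f1⟩ | ⟨a, ha1, ha2, e1, f1⟩ | ⟨l, hl1, hl2, e1, f1⟩ <;>
      rcases cases3 j2 hj2 with ⟨l', hl', e2, f2⟩ | ⟨a', ha1', ha2', e2, f2⟩ |
        ⟨l', hl1', hl2', e2, f2⟩ <;> rw [f1] at g1 <;> rw [f2] at g2
      · have := w.cf.ch d hT l (by omega) l' (by omega) g1 g2
        omega
      · have := w.on hT (by omega) (by omega) ha1' ha2' g1 g2
        omega
      · have := w.cf.ch d hT l (by omega) l' (by omega) g1 g2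
        omega
      · have := w.on (tc_inv.2 hT) (l := l') (by omega) (by omega) ha1 ha2 g2
          (by rw [G.inv_inv, g1])
        omega
      · have := w.nn hT ha1 ha2 ha1' ha2' g1 g2
        omega
      · have := w.on (tc_inv.2 hT) (l := l') (by omega) (by omega) ha1 ha2 g2
          (by rw [G.inv_inv, g1])
        omega
      · have := w.cf.ch d hT l (by omega) l' (by omega) g1 g2
        omega
      · have := w.on hT (by omega) (by omega) ha1' ha2' g1 g2
        omega
      · have := w.cf.ch d hT l (by omega) l' (by omega) g1 g2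
        omega
  · intro l hl hli
    by_cases h1 : l < i
    · exact ⟨l, by omega, hpA l h1⟩
    · exact ⟨l + n - 1, by omega, hpC l (by omega)⟩
  · intro j hj
    rcases cases3 j hj with ⟨l, hl, e1, f1⟩ | ⟨a, ha1, ha2, e1, f1⟩ | ⟨l, hl1, hl2, e1, f1⟩
    · exact Or.inl ⟨l, by omega, by omega, f1⟩
    · right
      refine ⟨o a, ⟨w.oT (by omega), fun _ => ?_, fun _ => ?_⟩, w.lab a (by omega), f1.symm⟩
      · rw [w.memU]
        right
        refine ⟨a - 1, by omega, ?_⟩
        have e3 := w.nxt (a - 1) (by omega)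
        have e4 : a - 1 + 1 = a := by omega
        rw [e4] at e3
        exact e3.symm
      · rw [w.memU]
        exact Or.inr ⟨a, ha2, rfl⟩
    · exact Or.inl ⟨l, by omega, by omega, f1⟩

end WC

end PushAux

open PushAux in
theorem t_push (hD1 : T_D1) (hD2 : T_D2) (hD3 : T_D3) (hD4 : T_D4) (hW : T_WALK) : T_PUSH := by
  intro V D _ _ G hC hC3 hC4 X g hP hM h6 d1 d2 d3 d4 hpt V1 t p h hcf i hi hit hk hk2
  have pc : PC G X g := ⟨hC, hC3, hP.bal, hD1 V D G hC hC3 hC4 X g hP,
    hD2 V D G hC hC3 hC4 X g hP, hD3 V D G hC hC3 hC4 X g hP, hD4 V D G hC hC3 hC4 X g hP hM⟩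
  have hcutV : ∀ {d}, d ∈ G.cut univ V1 → G.src d ∈ V1 ∧ G.tgt d ∉ V1 := by
    intro d hd
    rw [mem_cut] at hd
    exact hd.2
  have hleg : ∀ j < t, G.src (h j) ∈ V1 ∧ G.tgt (h j) ∈ X ∧ G.tgt (h j) ∉ V1 := by
    intro j hj
    have := hcutV ((hcf.cut (h j)).2 (Or.inr (Or.inr ⟨j, hj, rfl⟩)))
    exact ⟨this.1, hcf.inX j hj, this.2⟩
  have hprev := hleg (i - 1) (by omega)
  have hlabprev : g (h (i - 1)) = p i := by
    rw [(hcf.hp (i - 1) (by omega)).2]
    congr 1
    omega
  have hpc := ports_cut hpt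
  simp only [mem_cut] at hpc
  obtain ⟨c1, c2, c3, c4⟩ := hpc
  obtain ⟨n, o, ho0, ho1, hlab, hnxt, hlast, hinj, hall⟩ := hW V D G univ g (X \ V1) cl_univ
    (fun v hv => hP.bal v (mem_sdiff.1 hv).1)
    (fun v _ => by rw [hC])
    (fun d _ hT => pc.D1 d (hT.imp (fun h => (mem_sdiff.1 h).1) (fun h => (mem_sdiff.1 h).1)))
    (h (i - 1)) (mem_univ _) (fun h1 => (mem_sdiff.1 h1).2 hprev.1)
    (mem_sdiff.2 hprev.2) (G.inv (h i)) (by
      intro d _ hs ht hd
      rw [mem_sdiff] at hs
      rw [hlabprev] at hd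
      by_cases hX : G.tgt d ∈ X
      · have h1 : G.tgt d ∈ V1 := by
          by_contra h1
          exact ht (mem_sdiff.2 ⟨hX, h1⟩)
        have h2 : G.inv d ∈ G.cut univ V1 := by
          rw [mem_cut, src_inv, tgt_inv]
          exact ⟨mem_univ _, h1, hs.2⟩
        rw [hcf.cut] at h2
        rcases h2 with h2 | h2 | ⟨j, hj, h2⟩
        · exfalso
          apply c1.2.2
          rw [← h2, tgt_inv]
          exact hs.1
        · exfalso
          apply c2.2.2
          rw [← h2, tgt_inv]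
          exact hs.1
        · have h3 := (hcf.hp j hj).1
          rw [← h2, G.inv_inv, hd] at h3
          have h4 := hcf.inj i (by omega) j (by omega) h3
          rw [h4, ← h2, G.inv_inv]
      · exfalso
        have h2 : d ∈ G.cut univ X := mem_cut.2 ⟨mem_univ _, hs.1, hX⟩
        rw [hpt.cut] at h2
        rcases h2 with rfl | rfl | rfl | rfl
        · exact hs.2 (hcutV ((hcf.cut d).2 (Or.inl rfl))).1
        · exact hs.2 (hcutV ((hcf.cut d).2 (Or.inr (Or.inl rfl)))).1
        · rw [← hcf.pt] at hd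
          have := hcf.inj t (le_refl _) i (by omega) hd
          omega
        · exact hcf.n4 i (by omega) hd.symm)
    (by
      intro R _ hR hR1 hR2
      obtain ⟨r, hr⟩ := hR
      have h1 := hP.orb R ⟨r, hr⟩ (fun d hd => ⟨(mem_sdiff.1 (hR1 d hd).1).1,
        (mem_sdiff.1 (hR1 d hd).2.1).1⟩) (fun d hd d' h1 h2 => hR2 d hd d' (mem_univ _) h1 h2)
        r hr (h (i - 1)) (Or.inr hprev.2.1) (hR1 r hr).2.2.symm
      exact (mem_sdiff.1 (hR1 _ h1).1).2 hprev.1)
  have w : WC G X g d1 d2 d3 d4 V1 t p h i n o :=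
    { pc := pc
      pt := hpt
      cf := hcf
      six := h6
      hi := hi
      it := hit
      o0 := ho0
      o1 := ho1
      lab := fun a ha => by rw [(hlab a ha).2, hlabprev]
      nxt := fun a ha => (hnxt a ha).1
      inY := fun a ha => mem_sdiff.1 (hnxt a ha).2
      inj := hinj
      all := fun d h1 h2 h3 => hall d (mem_univ _) (mem_sdiff.2 ⟨h1, h2⟩) (by rw [h3, hlabprev])
      hk := hk
      hk2 := hk2 }
  exact w.main

end Pool.Agent.H69.OC
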